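import Pool.Agent.Lib.MP_7f88e4_nt.MP.Fin

set_option autoImplicit false

open Pool.Agent.Lib.MP_7f88e4_nt

/-- Scale invariant power saving for the integers whose orbit under the `3x+k` map stays above
`N |k|`. -/
theorem Pool.Agent.Results.MP_7f88e4_nt.AlmostBounded.result (A : ℝ)
    (hA : 2 / Real.log (4 / 3) < A) :
    ∃ c : ℝ, 0 < c ∧ ∃ C : ℝ, ∀ k : ℤ, (k % 6 = 1 ∨ k % 6 = 5) → ∀ N X : ℝ, 1 ≤ N → 1 ≤ X →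
      (Set.ncard {n : ℤ | |(n : ℝ)| ≤ X ∧ N * |(k : ℝ)| < |(n : ℝ)| ∧
        ∀ j : ℕ, (j : ℝ) ≤ A * Real.log (|(n : ℝ)| / |(k : ℝ)|) →
          N * |(k : ℝ)| < |(((T k)^[j] n : ℤ) : ℝ)|} : ℝ) ≤ C * X * N ^ (-c) := by
  obtain ⟨c, hc, C, -, h⟩ := MP.count_fin hA
  refine ⟨c, hc, C, fun k hk N X hN hX => ?_⟩
  have hf : {n : ℤ | |(n : ℝ)| ≤ X ∧ N * |(k : ℝ)| < |(n : ℝ)| ∧
      ∀ j : ℕ, (j : ℝ) ≤ A * Real.log (|(n : ℝ)| / |(k : ℝ)|) →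
        N * |(k : ℝ)| < |(((T k)^[j] n : ℤ) : ℝ)|}.Finite := by
    refine (Set.finite_Icc (-⌊X⌋) ⌊X⌋).subset fun n hn => ?_
    have h1 : |n| ≤ ⌊X⌋ := Int.le_floor.2 (by exact_mod_cast hn.1)
    exact abs_le.1 h1
  rw [Set.ncard_eq_toFinset_card _ hf]
  exact h k N X _ (Int.odd_iff.2 (by omega)) (by omega) hN hX fun n hn => hf.mem_toFinset.1 hn
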