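import Pool.Agent.Lib.MP_7f88e4_nt.PS.Pos

set_option autoImplicit false

open Pool.Agent.Lib.MP_7f88e4_nt Filter Topology

/-- Basins of the `3x+k` map have a natural density, and it is positive. -/
theorem Pool.Agent.Results.MP_7f88e4_nt.BasinDensity.result (k : ℤ) (hk : k % 6 = 1 ∨ k % 6 = 5) :
    ∃ c : ℝ, 0 < c ∧ ∀ A : Set ℤ, (∀ n, T k n ∈ A → n ∈ A) → {n ∈ A | T k n ∉ A}.Finite →
      ∃ d : ℝ, Tendsto (fun X : ℝ => (Set.ncard {n ∈ A | |(n : ℝ)| ≤ X} : ℝ) / (2 * X)) atTop (𝓝 d) ∧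
        ∀ a ∈ A, ¬ 3 ∣ a → c / |(a : ℝ)| ≤ d := by
  have h1 : Odd k := Int.odd_iff.2 (by omega)
  have h3 : ¬ 3 ∣ k := by omega
  obtain ⟨c, hc, h⟩ := PS.density_pos h1 h3
  refine ⟨c / 2, by positivity, fun A hA hF => ?_⟩
  obtain ⟨R, hR⟩ := (hF.image fun n : ℤ => |(n : ℝ)|).bddAbove
  obtain ⟨d, hd⟩ := PS.density_exists h1 h3 hA (R := R) fun n hn h => by
    by_contra hc
    exact absurd (hR ⟨n, ⟨hn, hc⟩, rfl⟩) (not_le.2 h)
  refine ⟨d / 2, (hd.div_const 2).congr fun X => ?_, fun a ha ha3 => ?_⟩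
  · have e : {n ∈ A | |(n : ℝ)| ≤ X} = ↑(PS.cut A X) := by
      ext n
      simp [PS.mem_cut, and_comm]
    rw [e, Set.ncard_coe_finset, div_div, mul_comm]
  · have := h A d hA hd a ha ha3
    rw [div_right_comm]
    linarith
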