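import Pool.Agent.Lib.MP_7f88e4_nt.MP.Main
import Pool.Agent.Lib.MP_7f88e4_nt.MP.Many

set_option autoImplicit false

open Pool.Agent.Lib.MP_7f88e4_nt

/-- For at least `K ^ c` values of `k` up to `K`, all but a proportion `k ^ (-c)` of the orbits of
the `3x+k` map are eventually periodic, with a cycle that meets `[-k^2, k^2]`. -/
theorem Pool.Agent.Results.MP_7f88e4_nt.MostPeriodic.result :
    ∃ c : ℝ, 0 < c ∧ ∃ K0 : ℝ, ∀ K : ℝ, K0 ≤ K →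
      K ^ c ≤ (Set.ncard {k : ℤ | 0 < k ∧ (k : ℝ) ≤ K ∧ k % 6 = 1 ∧ ∀ X : ℝ, (k : ℝ) ≤ X →
        (Set.ncard {n : ℤ | |(n : ℝ)| ≤ X ∧ ¬ ∃ m p : ℕ, 1 ≤ p ∧
          (T k)^[m + p] n = (T k)^[m] n ∧ |(T k)^[m] n| ≤ k ^ 2} : ℝ)
          ≤ (k : ℝ) ^ (-c) * X} : ℝ) := by
  obtain ⟨c, hc, K1, h⟩ := MP.most
  obtain ⟨η, hη, K0, h'⟩ := MP.many hc K1
  refine ⟨min c η, lt_min hc hη, max K0 1, fun K hK => ?_⟩
  obtain ⟨h1, h2⟩ := max_le_iff.1 hK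
  refine (Real.rpow_le_rpow_of_exponent_le h2 (min_le_right _ _)).trans ((h' K h1).trans ?_)
  refine Nat.cast_le.2 (Set.ncard_le_ncard ?_
    ((Set.finite_Icc 0 ⌊K⌋).subset fun n hn => ⟨hn.1.le, Int.le_floor.2 hn.2.1⟩))
  rintro k ⟨a1, a2, a3, a4, a5⟩
  have a6 : (1 : ℝ) ≤ k := by exact_mod_cast a1
  have a7 : |(k : ℝ)| = k := abs_of_pos (by linarith)
  refine ⟨a1, a2, a3, fun X hX => (h k (Or.inl a3) a5 (a7.symm ▸ a4) X (a7.symm ▸ hX)).trans ?_⟩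
  rw [a7]
  exact mul_le_mul_of_nonneg_right (Real.rpow_le_rpow_of_exponent_le a6
    (neg_le_neg (min_le_left _ _))) (by linarith)
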