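import Pool.Agent.Lib.MP_7f88e4_nt.STLinear
import Pool.Agent.Lib.MP_7f88e4_nt.Final

set_option autoImplicit false

open Pool.Agent.Lib.MP_7f88e4_nt

/-- Uniform superlinear complexity: an orbit of the `3x+k` map without repetition up to time
`A n` shows more than `C n` distinct parity blocks of length `n` at positions up to `A n`. -/
theorem Pool.Agent.Results.MP_7f88e4_nt.SuperlinearComplexity.result (C : ℕ) :
    ∃ A : ℕ, ∀ (k x : ℤ) (n : ℕ), Odd k → A ≤ n → |x| ≤ 2 ^ (C * n) → k ^ 2 ≤ 2 ^ n →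
      (∀ i j : ℕ, i < j → j ≤ A * n → (T k)^[i] x ≠ (T k)^[j] x) →
      C * n < Set.ncard
        {w : Fin n → Bool | ∃ i ≤ A * n, ∀ t : Fin n, w t = parity k x (i + t)} := by
  obtain ⟨A, H⟩ := linear_core C
  refine ⟨A, fun k x n hk hn hx hk2 hne => ?_⟩
  by_contra hcon
  obtain ⟨i, j, h1, h2, h3⟩ := H k _ _ n (rec_orbit hk x) hn hx hk2 (by
    refine le_trans (le_of_eq ?_) (not_lt.1 hcon)
    rw [cxL, ← Set.ncard_coe_finset]
    congr 1
    ext w
    simp only [Finset.coe_image, Finset.coe_range, Set.mem_image, Set.mem_Iio, Nat.lt_succ_iff,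
      Set.mem_ofPred_eq]
    exact ⟨fun ⟨i, hi, h⟩ => ⟨i, hi, fun t => h ▸ rfl⟩,
      fun ⟨i, hi, h⟩ => ⟨i, hi, (funext h).symm⟩⟩)
  exact hne i j h1 h2 h3
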